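import Mathlib

open Filter Topology

namespace Pool.Agent.Hlead.Saw

/-- If `h n / n → 0` and `2 h n - h (2 n) ≤ 0` for all `n ≥ N`, then `h n ≤ 0` for `n ≥ max N 1`. -/
lemma le_zero_of_doubling (h : ℕ → ℝ) (hlim : Tendsto (fun n : ℕ => h n / n) atTop (𝓝 0))
    (N : ℕ) (hN : ∀ n, N ≤ n → 2 * h n - h (2 * n) ≤ 0) (n : ℕ) (hn : N ≤ n) (hn1 : 1 ≤ n) :
    h n ≤ 0 := by
  have key : ∀ J : ℕ, h n ≤ h (2 ^ J * n) / 2 ^ J := by
    intro J
    induction J with
    | zero => simp
    | succ J ih =>
      have hle : N ≤ 2 ^ J * n := le_trans hn (Nat.le_mul_of_pos_left n (by positivity))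
      have h1 := hN (2 ^ J * n) hle
      have h2 : (2 : ℕ) * (2 ^ J * n) = 2 ^ (J + 1) * n := by ring
      rw [h2] at h1
      have h3 : h (2 ^ J * n) ≤ h (2 ^ (J + 1) * n) / 2 := by linarith
      calc h n ≤ h (2 ^ J * n) / 2 ^ J := ih
        _ ≤ (h (2 ^ (J + 1) * n) / 2) / 2 ^ J := by gcongr
        _ = h (2 ^ (J + 1) * n) / 2 ^ (J + 1) := by rw [div_div, pow_succ]; ring_nf
  have htend : Tendsto (fun J : ℕ => 2 ^ J * n) atTop atTop := by
    refine tendsto_atTop_mono (fun J => ?_) tendsto_id
    exact (Nat.lt_two_pow_self).le.trans (Nat.le_mul_of_pos_right _ hn1)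
  have h4 : Tendsto (fun J : ℕ => h (2 ^ J * n) / ((2 ^ J * n : ℕ) : ℝ)) atTop (𝓝 0) :=
    hlim.comp htend
  have h5 : Tendsto (fun J : ℕ => (h (2 ^ J * n) / ((2 ^ J * n : ℕ) : ℝ)) * n) atTop (𝓝 (0 * n)) :=
    h4.mul_const _
  have h6 : (fun J : ℕ => (h (2 ^ J * n) / ((2 ^ J * n : ℕ) : ℝ)) * n)
      = fun J : ℕ => h (2 ^ J * n) / 2 ^ J := by
    funext J
    have : (n : ℝ) ≠ 0 := by positivity
    push_cast
    field_simp
  rw [h6, zero_mul] at h5
  exact ge_of_tendsto h5 (Eventually.of_forall key)

lemma tendsto_log_nat : Tendsto (fun n : ℕ => Real.log n) atTop atTop :=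
  Real.tendsto_log_atTop.comp tendsto_natCast_atTop_atTop

lemma tendsto_log_nat_div : Tendsto (fun n : ℕ => Real.log n / n) atTop (𝓝 0) := by
  have h := (Real.isLittleO_log_id_atTop).tendsto_div_nhds_zero
  exact h.comp tendsto_natCast_atTop_atTop

/-- Abstract equivalence: for `h n / n → 0`, `(h (2n) - 2 h n) / log n → -α` iff
`h n / log n → α`. -/
theorem doubling_iff (h : ℕ → ℝ) (hlim : Tendsto (fun n : ℕ => h n / n) atTop (𝓝 0)) (α : ℝ) :
    Tendsto (fun n : ℕ => (h (2 * n) - 2 * h n) / Real.log n) atTop (𝓝 (-α)) ↔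
      Tendsto (fun n : ℕ => h n / Real.log n) atTop (𝓝 α) := by
  constructor
  · intro H
    -- φ n = log n + log 2
    have hφ : ∀ n : ℕ, 1 ≤ n → 2 * (Real.log n + Real.log 2)
        - (Real.log ((2 * n : ℕ) : ℝ) + Real.log 2) = Real.log n := by
      intro n hn
      have : (n : ℝ) ≠ 0 := by positivity
      push_cast
      rw [Real.log_mul (by norm_num) this]
      ring
    have hbound : ∀ ε > 0, ∀ᶠ n : ℕ in atTop, |h n - α * (Real.log n + Real.log 2)|
        ≤ ε * (Real.log n + Real.log 2) := by
      intro ε hε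
      have H1 := (Metric.tendsto_atTop.mp H) ε hε
      obtain ⟨N, hN⟩ := H1
      refine eventually_atTop.mpr ⟨max N 2, fun n hn => ?_⟩
      have hpt : ∀ m, max N 2 ≤ m → |2 * h m - h (2 * m) - α * Real.log m| ≤ ε * Real.log m := by
        intro m hm
        have h1 := hN m (le_trans (le_max_left _ _) hm)
        have hm2 : 2 ≤ m := le_trans (le_max_right _ _) hm
        have hlog : 0 < Real.log m := Real.log_pos (by exact_mod_cast hm2)
        rw [Real.dist_eq] at h1
        have h2 : (h (2 * m) - 2 * h m) / Real.log m - -α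
            = -((2 * h m - h (2 * m) - α * Real.log m) / Real.log m) := by
          field_simp; ring
        rw [h2, abs_neg, abs_div, abs_of_pos hlog, div_lt_iff₀ hlog] at h1
        exact h1.le
      have hlin : ∀ β : ℝ, Tendsto (fun n : ℕ => (h n - β * (Real.log n + Real.log 2)) / n)
          atTop (𝓝 0) := by
        intro β
        have h1 : Tendsto (fun n : ℕ => h n / n - β * (Real.log n / n) - β * Real.log 2 * (1 / (n:ℝ)))
            atTop (𝓝 (0 - β * 0 - β * Real.log 2 * 0)) :=
          (hlim.sub (tendsto_log_nat_div.const_mul β)).sub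
            ((tendsto_one_div_atTop_nhds_zero_nat).const_mul _)
        simp only [mul_zero, sub_zero] at h1
        refine h1.congr (fun n => ?_)
        rcases Nat.eq_zero_or_pos n with rfl | hn
        · simp
        · have : (n : ℝ) ≠ 0 := by positivity
          field_simp
          ring
      have hn2 : 2 ≤ n := le_trans (le_max_right _ _) hn
      have up : h n - (α + ε) * (Real.log n + Real.log 2) ≤ 0 := by
        refine le_zero_of_doubling (fun n => h n - (α + ε) * (Real.log n + Real.log 2))
          (hlin (α + ε)) (max N 2) ?_ n hn (by omega)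
        intro m hm
        have h1 := hpt m hm
        have h2 := (abs_le.mp h1).2
        have h3 := hφ m (le_trans (by norm_num) (le_trans (le_max_right N 2) hm))
        have h4 : 2 * (h m - (α + ε) * (Real.log m + Real.log 2))
            - (h (2 * m) - (α + ε) * (Real.log ((2 * m : ℕ) : ℝ) + Real.log 2))
            = 2 * h m - h (2 * m) - (α + ε) * (2 * (Real.log m + Real.log 2)
              - (Real.log ((2 * m : ℕ) : ℝ) + Real.log 2)) := by ring
        rw [h4, h3]
        linarith
      have lo : -(h n - (α - ε) * (Real.log n + Real.log 2)) ≤ 0 := by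
        refine le_zero_of_doubling (fun n => -(h n - (α - ε) * (Real.log n + Real.log 2)))
          ?_ (max N 2) ?_ n hn (by omega)
        · have := (hlin (α - ε)).neg
          rw [neg_zero] at this
          refine this.congr (fun n => ?_)
          rw [neg_div]
        · intro m hm
          have h1 := hpt m hm
          have h2 := (abs_le.mp h1).1
          have h3 := hφ m (le_trans (by norm_num) (le_trans (le_max_right N 2) hm))
          have h4 : 2 * -(h m - (α - ε) * (Real.log m + Real.log 2))
              - -(h (2 * m) - (α - ε) * (Real.log ((2 * m : ℕ) : ℝ) + Real.log 2))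
              = -(2 * h m - h (2 * m) - (α - ε) * (2 * (Real.log m + Real.log 2)
                - (Real.log ((2 * m : ℕ) : ℝ) + Real.log 2))) := by ring
          rw [h4, h3]
          linarith
      rw [abs_le]
      constructor <;> nlinarith
    rw [Metric.tendsto_atTop]
    intro ε hε
    have h1 := hbound (ε / 4) (by positivity)
    -- |α| log 2 / log n < ε/4 eventually, log n ≥ log 2
    have h2 : Tendsto (fun n : ℕ => |α| * Real.log 2 / Real.log n) atTop (𝓝 0) :=
      tendsto_const_nhds.div_atTop tendsto_log_nat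
    have h3 : ∀ᶠ n : ℕ in atTop, |α| * Real.log 2 / Real.log n < ε / 4 :=
      h2.eventually (gt_mem_nhds (by positivity))
    obtain ⟨N, hN⟩ := eventually_atTop.mp ((h1.and h3).and (eventually_ge_atTop 2))
    refine ⟨N, fun n hn => ?_⟩
    obtain ⟨⟨ha, hb⟩, hn2⟩ := hN n hn
    have hlog : 0 < Real.log n := Real.log_pos (by exact_mod_cast hn2)
    have hlog2 : Real.log 2 ≤ Real.log n := Real.log_le_log (by norm_num) (by exact_mod_cast hn2)
    have hlog2' : 0 < Real.log 2 := Real.log_pos (by norm_num)
    rw [div_lt_iff₀ hlog] at hb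
    rw [Real.dist_eq, div_sub' hlog.ne', abs_div, abs_of_pos hlog, div_lt_iff₀ hlog]
    have h5 : |h n - Real.log n * α| ≤ |h n - α * (Real.log n + Real.log 2)| + |α| * Real.log 2 := by
      have : h n - Real.log n * α = (h n - α * (Real.log n + Real.log 2)) + α * Real.log 2 := by ring
      rw [this]
      refine (abs_add_le _ _).trans ?_
      rw [abs_mul, abs_of_pos hlog2']
    nlinarith
  · intro H
    have h1 : Tendsto (fun n : ℕ => 2 * n) atTop atTop := by
      apply tendsto_atTop_mono (fun n => by omega : ∀ n : ℕ, n ≤ 2 * n) tendsto_id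
    have h2 : Tendsto (fun n : ℕ => h (2 * n) / Real.log ((2 * n : ℕ) : ℝ)) atTop (𝓝 α) := H.comp h1
    have h3 : Tendsto (fun n : ℕ => Real.log ((2 * n : ℕ) : ℝ) / Real.log n) atTop (𝓝 1) := by
      have h4 : Tendsto (fun n : ℕ => Real.log 2 / Real.log n) atTop (𝓝 0) :=
        tendsto_const_nhds.div_atTop tendsto_log_nat
      have h5 := h4.add_const 1
      rw [zero_add] at h5
      refine h5.congr' ?_
      filter_upwards [eventually_ge_atTop 2] with n hn
      have hlog : 0 < Real.log n := Real.log_pos (by exact_mod_cast hn)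
      have : (n : ℝ) ≠ 0 := by positivity
      push_cast
      rw [Real.log_mul (by norm_num) this]
      field_simp
    have h6 := (h2.mul h3).sub (H.const_mul 2)
    have h7 : α * 1 - 2 * α = -α := by ring
    rw [h7] at h6
    refine h6.congr' ?_
    filter_upwards [eventually_ge_atTop 2] with n hn
    have hlog : 0 < Real.log n := Real.log_pos (by exact_mod_cast hn)
    have hlog' : 0 < Real.log ((2 * n : ℕ) : ℝ) := Real.log_pos (by push_cast; norm_cast; omega)
    field_simp

end Pool.Agent.Hlead.Saw
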