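import Pool.Agent.Hlead.SawDefs
import Pool.Agent.Hlead.SawSeq

open Filter Topology

namespace Pool.Agent.Hlead.Saw

/-! ### Counting lemmas -/

lemma ncard_dep {α β : Type*} (S : Set α) (hS : S.Finite) (T : α → Set β)
    (hT : ∀ a ∈ S, (T a).Finite) (c : ℕ) (hc : ∀ a ∈ S, (T a).ncard = c) :
    {p : α × β | p.1 ∈ S ∧ p.2 ∈ T p.1}.ncard = S.ncard * c := by
  classical
  have : Fintype S := hS.fintype
  have hTf : ∀ a : S, Finite (T a) := fun a => (hT a a.2).to_subtype
  let e : {p : α × β | p.1 ∈ S ∧ p.2 ∈ T p.1} ≃ Σ a : S, T a :=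
    { toFun := fun p => ⟨⟨p.1.1, p.2.1⟩, ⟨p.1.2, p.2.2⟩⟩
      invFun := fun q => ⟨(q.1.1, q.2.1), ⟨q.1.2, q.2.2⟩⟩
      left_inv := fun p => rfl
      right_inv := fun q => rfl }
  rw [← Nat.card_coe_set_eq, Nat.card_congr e, Nat.card_sigma]
  have h1 : ∀ a : S, Nat.card (T a) = c := fun a => by
    rw [Nat.card_coe_set_eq]; exact hc a a.2
  simp only [h1, Finset.sum_const, Finset.card_univ, smul_eq_mul]
  rw [← Nat.card_coe_set_eq, Nat.card_eq_fintype_card]

lemma finite_dep {α β : Type*} (S : Set α) (hS : S.Finite) (T : α → Set β)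
    (hT : ∀ a ∈ S, (T a).Finite) :
    {p : α × β | p.1 ∈ S ∧ p.2 ∈ T p.1}.Finite := by
  have : {p : α × β | p.1 ∈ S ∧ p.2 ∈ T p.1} = ⋃ a ∈ S, (Prod.mk a) '' (T a) := by
    ext ⟨x, y⟩
    simp only [Set.mem_ofPred_eq, Set.mem_iUnion, Set.mem_image, Prod.mk.injEq, exists_prop]
    constructor
    · rintro ⟨h1, h2⟩; exact ⟨x, h1, y, h2, rfl, rfl⟩
    · rintro ⟨a, ha, b, hb, rfl, rfl⟩; exact ⟨ha, hb⟩
  rw [this]
  exact hS.biUnion (fun a ha => (hT a ha).image _)

variable {V : Set ℂ} {G : SimpleGraph V}

lemma omega_finite (hG : IsLattice V G) (x : V) (n : ℕ) : (Omega G x n).Finite := by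
  induction n with
  | zero =>
    refine (Set.finite_singleton (fun _ => x)).subset ?_
    rintro w ⟨h, -, -⟩
    rw [Set.mem_singleton_iff]
    funext i
    have hi : i = 0 := Fin.ext (by omega)
    rw [hi, h]
  | succ n ih =>
    have : Omega G x (n + 1) ⊆ ⋃ u ∈ Omega G x n,
        (fun y : V => (Fin.snoc u y : Fin (n + 2) → V)) '' {y : V | G.Adj (u (Fin.last n)) y} := by
      rintro w ⟨h0, hadj, hinj⟩
      simp only [Set.mem_iUnion, exists_prop]
      refine ⟨Fin.init w, ⟨?_, ?_, ?_⟩, w (Fin.last _), ?_, Fin.snoc_init_self w⟩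
      · simpa [Fin.init] using h0
      · intro i
        have := hadj i.castSucc
        simpa [Fin.init] using this
      · intro i j hij
        have := hinj (show w i.castSucc = w j.castSucc from hij)
        exact Fin.castSucc_injective _ this
      · have := hadj (Fin.last n)
        simpa [Fin.init] using this
    refine (ih.biUnion (fun u _ => ?_)).subset this
    exact (hG.locallyFinite _).image _

/-- self-avoiding paths of length `2n` whose midpoint is `x` -/
def Mid (G : SimpleGraph V) (x : V) (n : ℕ) : Set (Fin (2 * n + 1) → V) :=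
  {w | w ⟨n, by omega⟩ = x ∧ (∀ i : Fin (2 * n), G.Adj (w i.castSucc) (w i.succ)) ∧
    Function.Injective w}

lemma a_const (hG : IsLattice V G) (x y : V) (n : ℕ) : a G x n = a G y n := by
  obtain ⟨f, -, hf⟩ := hG.transitive x y
  unfold a
  have : Omega G y n = (fun w : Fin (n + 1) → V => fun i => f (w i)) '' Omega G x n := by
    ext w
    constructor
    · rintro ⟨h0, hadj, hinj⟩
      refine ⟨fun i => f.symm (w i), ⟨?_, ?_, ?_⟩, ?_⟩
      · simp only [h0, ← hf, RelIso.symm_apply_apply]
      · intro i
        exact f.symm.map_rel_iff.mpr (hadj i)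
      · intro i j hij
        exact hinj (f.symm.injective hij)
      · funext i; simp
    · rintro ⟨u, ⟨h0, hadj, hinj⟩, rfl⟩
      refine ⟨by simp [h0, hf], fun i => f.map_rel_iff.mpr (hadj i), fun i j hij => ?_⟩
      exact hinj (f.injective hij)
  rw [this, Set.ncard_image_of_injective]
  intro u v huv
  funext i
  exact f.injective (congrFun huv i)

lemma mid_const (hG : IsLattice V G) (x y : V) (n : ℕ) : (Mid G x n).ncard = (Mid G y n).ncard := by
  obtain ⟨f, -, hf⟩ := hG.transitive x y
  have : Mid G y n = (fun w : Fin (2 * n + 1) → V => fun i => f (w i)) '' Mid G x n := by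
    ext w
    constructor
    · rintro ⟨h0, hadj, hinj⟩
      refine ⟨fun i => f.symm (w i), ⟨?_, ?_, ?_⟩, ?_⟩
      · simp only [h0, ← hf, RelIso.symm_apply_apply]
      · intro i
        exact f.symm.map_rel_iff.mpr (hadj i)
      · intro i j hij
        exact hinj (f.symm.injective hij)
      · funext i; simp
    · rintro ⟨u, ⟨h0, hadj, hinj⟩, rfl⟩
      refine ⟨by simp [h0, hf], fun i => f.map_rel_iff.mpr (hadj i), fun i j hij => ?_⟩
      exact hinj (f.injective hij)
  rw [this, Set.ncard_image_of_injective]
  intro u v huv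
  funext i
  exact f.injective (congrFun huv i)

lemma a_submul (hG : IsLattice V G) (x : V) (m n : ℕ) : a G x (m + n) ≤ a G x m * a G x n := by
  have h1 := ncard_dep (Omega G x m) (omega_finite hG x m)
    (fun u => Omega G (u (Fin.last m)) n) (fun u _ => omega_finite hG _ n) (a G x n)
    (fun u _ => a_const hG _ _ n)
  have h2 := finite_dep (Omega G x m) (omega_finite hG x m)
    (fun u => Omega G (u (Fin.last m)) n) (fun u _ => omega_finite hG _ n)
  unfold a at h1 ⊢
  rw [← h1]
  refine Set.ncard_le_ncard_of_injOn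
    (fun w => (fun i : Fin (m + 1) => w ⟨i, by omega⟩, fun j : Fin (n + 1) => w ⟨m + j, by omega⟩))
    ?_ ?_ h2
  · rintro w ⟨h0, hadj, hinj⟩
    refine ⟨⟨?_, ?_, ?_⟩, ?_, ?_, ?_⟩
    · exact h0
    · intro i
      exact hadj ⟨i, by omega⟩
    · intro i j hij
      have := hinj hij
      simpa [Fin.ext_iff] using this
    · rfl
    · intro i
      exact hadj ⟨m + i, by omega⟩
    · intro i j hij
      have := hinj hij
      simpa [Fin.ext_iff] using this
  · intro w _ w' _ h
    simp only [Prod.mk.injEq] at h
    funext k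
    rcases Nat.lt_or_ge k (m + 1) with hk | hk
    · exact congrFun h.1 ⟨k, hk⟩
    · have := congrFun h.2 ⟨k - m, by omega⟩
      have hk' : (⟨m + (k - m), by omega⟩ : Fin (m + n + 1)) = k := by
        ext; simp; omega
      simpa [hk'] using this

lemma ball_finite (hG : IsLattice V G) (x : V) (n : ℕ) : {y : V | G.dist x y ≤ n}.Finite := by
  induction n with
  | zero =>
    refine (Set.finite_singleton x).subset ?_
    intro y hy
    simp only [Set.mem_ofPred_eq, Nat.le_zero] at hy
    rw [Set.mem_singleton_iff]
    exact ((hG.connected.dist_eq_zero_iff).mp hy).symm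
  | succ n ih =>
    have : {y : V | G.dist x y ≤ n + 1} ⊆ {y : V | G.dist x y ≤ n} ∪
        ⋃ z ∈ {y : V | G.dist x y ≤ n}, {y : V | G.Adj z y} := by
      intro y hy
      simp only [Set.mem_ofPred_eq] at hy
      by_cases h : G.dist x y ≤ n
      · left; exact h
      · right
        obtain ⟨p, hp⟩ := (hG.connected x y).exists_walk_length_eq_dist
        have hlen : p.length = n + 1 := by omega
        simp only [Set.mem_iUnion, exists_prop, Set.mem_ofPred_eq]
        refine ⟨p.getVert n, ?_, ?_⟩
        · have := SimpleGraph.dist_le (p.take n)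
          refine this.trans ?_
          simp [hlen]
        · have h1 := p.adj_getVert_succ (i := n) (by omega)
          rwa [← hlen, p.getVert_length] at h1
    exact (ih.union (ih.biUnion (fun z _ => hG.locallyFinite z))).subset this

lemma a_pos (hG : IsLattice V G) (x : V) (n : ℕ) : 1 ≤ a G x n := by
  have hinf : Infinite V := hG.infinite.to_subtype
  obtain ⟨y, hy⟩ : ∃ y : V, n ≤ G.dist x y := by
    by_contra hcon
    push Not at hcon
    apply Set.infinite_univ (α := V)
    refine (ball_finite hG x n).subset (fun y _ => ?_)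
    exact (hcon y).le
  obtain ⟨p, hp⟩ := (hG.connected x y).exists_walk_length_eq_dist
  have hpath : p.IsPath := p.isPath_of_length_eq_dist hp
  have hlen : n ≤ p.length := by omega
  unfold a
  rw [Nat.one_le_iff_ne_zero, ← Nat.pos_iff_ne_zero, Set.ncard_pos (omega_finite hG x n)]
  refine ⟨fun i => p.getVert i, ?_, ?_, ?_⟩
  · simp
  · intro i
    exact p.adj_getVert_succ (by have := i.2; simp; omega)
  · intro i j hij
    have := hpath.getVert_injOn (by have := i.2; simp; omega) (by have := j.2; simp; omega) hij
    exact Fin.ext this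

/-! ### Disjoint pairs and paths with given midpoint -/

lemma pairs_ncard (x : V) (n : ℕ) : (DisjointPairs G x n).ncard = (Mid G x n).ncard := by
  symm
  refine Set.ncard_congr (fun (w : Fin (2 * n + 1) → V) _ =>
    ((fun i : Fin (n + 1) => w ⟨n - i, by omega⟩), (fun j : Fin (n + 1) => w ⟨n + j, by omega⟩)))
    ?_ ?_ ?_
  · rintro w ⟨h0, hadj, hinj⟩
    refine ⟨⟨?_, ?_, ?_⟩, ⟨?_, ?_, ?_⟩, ?_⟩
    · exact h0
    · intro i
      have h := hadj ⟨n - (i + 1), by omega⟩
      have e1 : (⟨n - (i + 1), by omega⟩ : Fin (2 * n)).succ = ⟨n - i, by omega⟩ := by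
        ext; simp; omega
      rw [e1] at h
      exact h.symm
    · intro i j hij
      have := hinj hij
      have h' : n - (i : ℕ) = n - (j : ℕ) := by simpa [Fin.ext_iff] using this
      ext; omega
    · exact h0
    · intro i
      exact hadj ⟨n + i, by omega⟩
    · intro i j hij
      have := hinj hij
      simpa [Fin.ext_iff] using this
    · intro i j hi hij
      have := hinj hij
      have h' : n - (i : ℕ) = n + (j : ℕ) := congrArg Fin.val this
      have hi0 : (i : ℕ) = 0 := by omega
      exact hi (Fin.ext hi0)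
  · intro w w' _ _ h
    simp only [Prod.mk.injEq] at h
    funext k
    rcases Nat.lt_or_ge k n with hk | hk
    · have := congrFun h.1 ⟨n - k, by omega⟩
      have hk' : (⟨n - (n - k), by omega⟩ : Fin (2 * n + 1)) = k := by
        ext; simp; omega
      simpa [hk'] using this
    · have := congrFun h.2 ⟨k - n, by omega⟩
      have hk' : (⟨n + (k - n), by omega⟩ : Fin (2 * n + 1)) = k := by
        ext; simp; omega
      simpa [hk'] using this
  · rintro ⟨u, v⟩ ⟨⟨hu0, huadj, huinj⟩, ⟨hv0, hvadj, hvinj⟩, hdis⟩
    refine ⟨fun k => if h : (k : ℕ) < n then u ⟨n - k, by omega⟩ else v ⟨k - n, by omega⟩,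
      ⟨?_, ?_, ?_⟩, ?_⟩
    · simpa using hv0
    · intro i
      by_cases h1 : (i : ℕ) + 1 < n
      · have h2 : (i : ℕ) < n := by omega
        simp only [Fin.val_castSucc, h2, dite_true, Fin.val_succ, h1]
        have h := huadj ⟨n - (i + 1), by omega⟩
        have e1 : (⟨n - (i + 1), by omega⟩ : Fin n).succ = ⟨n - i, by omega⟩ := by
          ext; simp; omega
        rw [e1] at h
        exact h.symm
      · by_cases h2 : (i : ℕ) < n
        · simp only [Fin.val_castSucc, h2, dite_true, Fin.val_succ, h1, dite_false]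
          have h := huadj ⟨0, by omega⟩
          have e1 : (⟨0, by omega⟩ : Fin n).succ = ⟨n - i, by omega⟩ := by
            ext; simp; omega
          have e2 : (⟨0, by omega⟩ : Fin n).castSucc = 0 := rfl
          have e3 : (⟨(i : ℕ) + 1 - n, by omega⟩ : Fin (n + 1)) = 0 := by
            ext; simp; omega
          rw [e1, e2, hu0, ← hv0, ← e3] at h
          exact h.symm
        · simp only [Fin.val_castSucc, h2, dite_false, Fin.val_succ, h1]
          have h := hvadj ⟨i - n, by omega⟩
          have e1 : (⟨i - n, by omega⟩ : Fin n).succ = ⟨i + 1 - n, by omega⟩ := by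
            ext; simp; omega
          rw [e1] at h
          exact h
    · intro i j hij
      simp only at hij
      split_ifs at hij with h1 h2 h2
      · have := huinj hij
        have h' : n - (i : ℕ) = n - (j : ℕ) := by simpa [Fin.ext_iff] using this
        ext; omega
      · exact absurd hij (hdis _ _ (by intro h; have := congrArg Fin.val h; simp at this; omega))
      · exact absurd hij.symm
          (hdis _ _ (by intro h; have := congrArg Fin.val h; simp at this; omega))
      · have := hvinj hij
        have h' : (i : ℕ) - n = (j : ℕ) - n := by simpa [Fin.ext_iff] using this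
        ext; omega
    · ext i
      · simp only
        split_ifs with h
        · congr 2; ext; simp; omega
        · have hi0 : (i : ℕ) = 0 := by
            have h' : ¬ (n - (i : ℕ) < n) := h
            omega
          have hi : i = 0 := Fin.ext hi0
          subst hi
          have e : u 0 = v 0 := hu0.trans hv0.symm
          rw [e]
          congr 2
          ext; simp
      · simp only
        split_ifs with h
        · omega
        · congr 2; ext; simp

lemma mid_finite (hG : IsLattice V G) (x : V) (n : ℕ) : (Mid G x n).Finite := by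
  have h : (Omega G x n ×ˢ Omega G x n).Finite := (omega_finite hG x n).prod (omega_finite hG x n)
  refine Set.Finite.of_injOn (f := fun (w : Fin (2 * n + 1) → V) =>
    ((fun i : Fin (n + 1) => w ⟨n - i, by omega⟩), (fun j : Fin (n + 1) => w ⟨n + j, by omega⟩)))
    (t := Omega G x n ×ˢ Omega G x n) ?_ ?_ h
  · rintro w ⟨h0, hadj, hinj⟩
    refine ⟨⟨?_, ?_, ?_⟩, ⟨?_, ?_, ?_⟩⟩
    · exact h0
    · intro i
      have h := hadj ⟨n - (i + 1), by omega⟩
      have e1 : (⟨n - (i + 1), by omega⟩ : Fin (2 * n)).succ = ⟨n - i, by omega⟩ := by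
        ext; simp; omega
      rw [e1] at h
      exact h.symm
    · intro i j hij
      have := hinj hij
      have h' : n - (i : ℕ) = n - (j : ℕ) := by simpa [Fin.ext_iff] using this
      ext; omega
    · exact h0
    · intro i
      exact hadj ⟨n + i, by omega⟩
    · intro i j hij
      have := hinj hij
      simpa [Fin.ext_iff] using this
  · intro w _ w' _ h
    simp only [Prod.mk.injEq] at h
    funext k
    rcases Nat.lt_or_ge k n with hk | hk
    · have := congrFun h.1 ⟨n - k, by omega⟩
      have hk' : (⟨n - (n - k), by omega⟩ : Fin (2 * n + 1)) = k := by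
        ext; simp; omega
      simpa [hk'] using this
    · have := congrFun h.2 ⟨k - n, by omega⟩
      have hk' : (⟨n + (k - n), by omega⟩ : Fin (2 * n + 1)) = k := by
        ext; simp; omega
      simpa [hk'] using this

end Pool.Agent.Hlead.Saw
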