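import Mathlib

open Filter Topology

namespace Pool.Agent.Hlead.Saw

/-- `G` is an infinite, connected, locally finite graph whose vertex set `V` is a discrete subset of
the plane `ℂ`, and which is transitive: for all vertices `x`, `y` some automorphism of `G` that
preserves all Euclidean distances between vertices sends `x` to `y`. -/
structure IsLattice (V : Set ℂ) (G : SimpleGraph V) : Prop where
  infinite : V.Infinite
  discrete : ∀ x ∈ V, ∃ δ > 0, ∀ y ∈ V, dist x y < δ → y = x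
  connected : G.Connected
  locallyFinite : ∀ x : V, {y : V | G.Adj x y}.Finite
  transitive : ∀ x y : V, ∃ f : G ≃g G,
    (∀ z w : V, dist (f z : ℂ) (f w) = dist (z : ℂ) w) ∧ f x = y

/-- `Ω_n`: the self-avoiding paths `(w_0, ..., w_n)` with `w_0 = o`. -/
def Omega {V : Set ℂ} (G : SimpleGraph V) (o : V) (n : ℕ) : Set (Fin (n + 1) → V) :=
  {w | w 0 = o ∧ (∀ i : Fin n, G.Adj (w i.castSucc) (w i.succ)) ∧ Function.Injective w}

/-- `a_n`, the number of self-avoiding paths of length `n` from `o`. -/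
noncomputable def a {V : Set ℂ} (G : SimpleGraph V) (o : V) (n : ℕ) : ℕ := (Omega G o n).ncard

/-- `μ_L = inf_{n ≥ 1} a_n ^ (1 / n)`. -/
noncomputable def muL {V : Set ℂ} (G : SimpleGraph V) (o : V) : ℝ :=
  ⨅ n : ℕ, (a G o (n + 1) : ℝ) ^ (1 / ((n : ℝ) + 1))

/-- The pairs `(w, w')` in `Ω_n × Ω_n` with `w{1,...,n} ∩ w'{0,...,n} = ∅`. -/
def DisjointPairs {V : Set ℂ} (G : SimpleGraph V) (o : V) (n : ℕ) :
    Set ((Fin (n + 1) → V) × (Fin (n + 1) → V)) :=
  {p | p.1 ∈ Omega G o n ∧ p.2 ∈ Omega G o n ∧ ∀ i j, i ≠ 0 → p.1 i ≠ p.2 j}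

/-- `P_n[w{1,...,n} ∩ w'{0,...,n} = ∅]` for independent uniform `w, w'` in `Ω_n`. -/
noncomputable def P {V : Set ℂ} (G : SimpleGraph V) (o : V) (n : ℕ) : ℝ :=
  (DisjointPairs G o n).ncard / (a G o n : ℝ) ^ 2

end Pool.Agent.Hlead.Saw
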