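import Pool.Agent.Hlead.SawGrowth

open Filter Topology

namespace Pool.Agent.Hlead.Saw

variable {V : Set ℂ} {G : SimpleGraph V}

/-- `log a_n` is subadditive. -/
lemma subadd (hG : IsLattice V G) (o : V) : Subadditive (fun n => Real.log (a G o n)) := by
  intro m n
  have h1 : (1 : ℝ) ≤ a G o m := by exact_mod_cast a_pos hG o m
  have h2 : (1 : ℝ) ≤ a G o n := by exact_mod_cast a_pos hG o n
  have h3 : (1 : ℝ) ≤ a G o (m + n) := by exact_mod_cast a_pos hG o (m + n)
  have h4 : (a G o (m + n) : ℝ) ≤ a G o m * a G o n := by exact_mod_cast a_submul hG o m n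
  rw [← Real.log_mul (by positivity) (by positivity)]
  exact Real.log_le_log (by positivity) h4

lemma bddBelow_range (hG : IsLattice V G) (o : V) :
    BddBelow (Set.range (fun n : ℕ => Real.log (a G o n) / n)) := by
  refine ⟨0, ?_⟩
  rintro _ ⟨n, rfl⟩
  have h1 : (1 : ℝ) ≤ a G o n := by exact_mod_cast a_pos hG o n
  exact div_nonneg (Real.log_nonneg h1) (Nat.cast_nonneg n)

lemma muL_eq (hG : IsLattice V G) (o : V) : muL G o = Real.exp (subadd hG o).lim := by
  have hbdd := bddBelow_range hG o
  have hlim := (subadd hG o).tendsto_lim hbdd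
  have hroot : ∀ n : ℕ, (a G o (n + 1) : ℝ) ^ (1 / ((n : ℝ) + 1))
      = Real.exp (Real.log (a G o (n + 1)) / ((n + 1 : ℕ) : ℝ)) := by
    intro n
    have h1 : (0 : ℝ) < a G o (n + 1) := by
      have := a_pos hG o (n + 1)
      exact_mod_cast this
    rw [Real.rpow_def_of_pos h1]
    congr 1
    push_cast
    ring
  apply le_antisymm
  · -- inf ≤ limit
    have h1 : Tendsto (fun n : ℕ => (a G o (n + 1) : ℝ) ^ (1 / ((n : ℝ) + 1))) atTop
        (𝓝 (Real.exp (subadd hG o).lim)) := by
      have h2 := (Real.continuous_exp.tendsto _).comp (hlim.comp (tendsto_add_atTop_nat 1))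
      refine h2.congr (fun n => ?_)
      exact (hroot n).symm
    refine ge_of_tendsto h1 (Eventually.of_forall (fun n => ?_))
    refine ciInf_le ⟨0, ?_⟩ n
    rintro _ ⟨m, rfl⟩
    positivity
  · refine le_ciInf (fun n => ?_)
    rw [hroot n, Real.exp_le_exp]
    exact (subadd hG o).lim_le_div hbdd (Nat.succ_ne_zero n)

lemma muL_pos (hG : IsLattice V G) (o : V) : 0 < muL G o := by
  rw [muL_eq hG]; exact Real.exp_pos _

/-- The exponent of the non-intersection probability and the exponent of `a_n / μ^n`. -/
theorem exponent_iff (hG : IsLattice V G) (o : V) (α : ℝ) :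
    Tendsto (fun n : ℕ => Real.log (P G o n) / Real.log n) atTop (𝓝 (-α)) ↔
      Tendsto (fun n : ℕ => Real.log (a G o n / muL G o ^ n) / Real.log n) atTop (𝓝 α) := by
  have hbdd := bddBelow_range hG o
  have hlim := (subadd hG o).tendsto_lim hbdd
  set L := (subadd hG o).lim with hL
  have hmu : muL G o = Real.exp L := muL_eq hG o
  set h : ℕ → ℝ := fun n => Real.log (a G o n / muL G o ^ n) with hh
  have hval : ∀ n, h n = Real.log (a G o n) - n * L := by
    intro n
    have h1 : (0 : ℝ) < a G o n := by
      have := a_pos hG o n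
      exact_mod_cast this
    rw [hh]
    simp only
    rw [hmu, Real.log_div h1.ne' (by positivity), Real.log_pow, Real.log_exp]
  have hzero : Tendsto (fun n : ℕ => h n / n) atTop (𝓝 0) := by
    have h1 := hlim.sub_const L
    rw [sub_self] at h1
    refine h1.congr' ?_
    filter_upwards [eventually_ge_atTop 1] with n hn
    have : (n : ℝ) ≠ 0 := by positivity
    rw [hval]
    field_simp
  have hP : ∀ n, Real.log (P G o n) = h (2 * n) - 2 * h n := by
    intro n
    have h1 : (0 : ℝ) < a G o n := by
      have := a_pos hG o n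
      exact_mod_cast this
    have h2 : (0 : ℝ) < a G o (2 * n) := by
      have := a_pos hG o (2 * n)
      exact_mod_cast this
    rw [P_eq hG, Real.log_div h2.ne' (by positivity), Real.log_pow, hval, hval]
    push_cast
    ring
  have := doubling_iff h hzero α
  simp only [hP]
  exact this

end Pool.Agent.Hlead.Saw
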