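import Pool.Agent.Hlead.SawCount

open Filter Topology

namespace Pool.Agent.Hlead.Saw

/-- If `N` is positive, polynomially bounded and `N R * A ≤ N (R + c) * B` for all `R ≥ 0`, then
`A ≤ B`. -/
lemma le_of_growth (N : ℝ → ℕ) (C c : ℝ) (hc : 0 ≤ c) (hC : ∀ R, 0 ≤ R → (N R : ℝ) ≤ C * (R + 1) ^ 2)
    (h0 : 1 ≤ N 0) (A B : ℕ) (h : ∀ R, 0 ≤ R → N R * A ≤ N (R + c) * B) : A ≤ B := by
  by_contra hcon
  have hAB : B + 1 ≤ A := by omega
  have hB0 : 0 < B := by
    rcases Nat.eq_zero_or_pos B with hB | hB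
    · exfalso
      have := h 0 le_rfl
      rw [hB, Nat.mul_zero] at this
      have h2 : 1 * 1 ≤ N 0 * A := Nat.mul_le_mul h0 (by omega)
      omega
    · exact hB
  set q : ℝ := 1 + 1 / B with hq
  have hBr : (0 : ℝ) < B := by exact_mod_cast hB0
  have hq1 : 1 < q := by
    have : 0 < 1 / (B : ℝ) := by positivity
    rw [hq]; linarith
  have step : ∀ R, 0 ≤ R → q * N R ≤ N (R + c) := by
    intro R hR
    have h1 : (N R : ℝ) * (B + 1) ≤ N (R + c) * B := by
      have h2 : N R * (B + 1) ≤ N (R + c) * B := (Nat.mul_le_mul_left _ hAB).trans (h R hR)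
      exact_mod_cast h2
    rw [hq]
    have h3 : (1 + 1 / (B : ℝ)) * N R = (N R * (B + 1)) / B := by field_simp
    rw [h3, div_le_iff₀ hBr]
    exact h1
  have key : ∀ k : ℕ, q ^ k ≤ N (k * c) := by
    intro k
    induction k with
    | zero => simp; exact_mod_cast h0
    | succ k ih =>
      have h1 := step (k * c) (by positivity)
      have h2 : (k : ℝ) * c + c = ((k + 1 : ℕ) : ℝ) * c := by push_cast; ring
      rw [h2] at h1
      calc q ^ (k + 1) = q * q ^ k := by ring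
        _ ≤ q * N (k * c) := by gcongr
        _ ≤ _ := h1
  -- contradiction from polynomial bound
  have hpoly : ∀ k : ℕ, 1 ≤ k → q ^ k ≤ (C * (c + 1) ^ 2) * (k : ℝ) ^ 2 := by
    intro k hk
    have h1 := (key k).trans (hC (k * c) (by positivity))
    have hk1 : (1 : ℝ) ≤ k := by exact_mod_cast hk
    have hC0 : 0 ≤ C := by
      have := hC 0 le_rfl
      have h2 : (1 : ℝ) ≤ N 0 := by exact_mod_cast h0
      nlinarith
    refine h1.trans ?_
    have h3 : (k * c + 1) ^ 2 ≤ ((c + 1) * k) ^ 2 := by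
      apply pow_le_pow_left₀ (by positivity)
      nlinarith
    calc C * (k * c + 1) ^ 2 ≤ C * ((c + 1) * k) ^ 2 := by gcongr
      _ = _ := by ring
  have hlim : Tendsto (fun k : ℕ => (k : ℝ) ^ 2 / q ^ k) atTop (𝓝 0) :=
    tendsto_pow_const_div_const_pow_of_one_lt 2 hq1
  have hlim2 := hlim.const_mul (C * (c + 1) ^ 2)
  rw [mul_zero] at hlim2
  have hev := hlim2.eventually (gt_mem_nhds (zero_lt_one))
  obtain ⟨k, hk1, hk2⟩ := (hev.and (eventually_ge_atTop 1)).exists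
  have h1 := hpoly k hk2
  have hqk : 0 < q ^ k := by positivity
  rw [← mul_div_assoc, div_lt_one hqk] at hk1
  linarith

variable {V : Set ℂ} {G : SimpleGraph V}

/-- uniform separation -/
lemma exists_sep (hG : IsLattice V G) (o : V) : ∃ δ > 0, ∀ x y : V, x ≠ y → δ ≤ dist (x : ℂ) y := by
  obtain ⟨δ, hδ, h⟩ := hG.discrete o o.2
  refine ⟨δ, hδ, fun x y hxy => ?_⟩
  by_contra hcon
  push Not at hcon
  obtain ⟨f, hf, hfx⟩ := hG.transitive x o
  apply hxy
  apply f.injective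
  have h1 := h (f y) (f y).2 (by
    have := hf x y
    rw [hfx] at this
    rw [this]; exact hcon)
  rw [hfx]
  exact (Subtype.ext h1).symm

/-- bounded edge length -/
lemma exists_edge (hG : IsLattice V G) (o : V) :
    ∃ D : ℝ, 0 ≤ D ∧ ∀ x y : V, G.Adj x y → dist (x : ℂ) y ≤ D := by
  obtain ⟨D, hD⟩ := ((hG.locallyFinite o).image (fun y : V => dist (o : ℂ) y)).bddAbove
  refine ⟨max D 0, le_max_right _ _, fun x y hxy => ?_⟩
  obtain ⟨f, hf, hfx⟩ := hG.transitive x o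
  have h1 : G.Adj o (f y) := by
    rw [← hfx]; exact f.map_rel_iff.mpr hxy
  have h2 := hD (Set.mem_image_of_mem _ h1)
  have h3 := hf x y
  rw [hfx] at h3
  rw [← h3]
  exact h2.trans (le_max_left _ _)

/-- vertices in a ball around `o` -/
def ballV (o : V) (R : ℝ) : Set V := {x : V | dist (x : ℂ) o ≤ R}

lemma ballV_grid (hG : IsLattice V G) (o : V) : ∃ C : ℝ, ∀ R, 0 ≤ R →
    (ballV o R).Finite ∧ ((ballV o R).ncard : ℝ) ≤ C * (R + 1) ^ 2 := by
  obtain ⟨δ, hδ, hsep⟩ := exists_sep hG o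
  set ε : ℝ := δ / 2 with hε
  have hε0 : 0 < ε := by positivity
  refine ⟨(2 / ε + 3) ^ 2, fun R hR => ?_⟩
  set K : ℕ := ⌈R / ε⌉₊ with hK
  let g : V → ℤ × ℤ := fun x => (⌊((x : ℂ) - o).re / ε⌋, ⌊((x : ℂ) - o).im / ε⌋)
  have hmaps : Set.MapsTo g (ballV o R) ((Finset.Icc (-(K : ℤ)) K ×ˢ Finset.Icc (-(K : ℤ)) K :
      Finset (ℤ × ℤ)) : Set (ℤ × ℤ)) := by
    intro x hx
    have hx' : ‖(x : ℂ) - o‖ ≤ R := by simpa [ballV, dist_eq_norm] using hx
    have h1 : |((x : ℂ) - o).re| ≤ R := (Complex.abs_re_le_norm _).trans hx'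
    have h2 : |((x : ℂ) - o).im| ≤ R := (Complex.abs_im_le_norm _).trans hx'
    have hRK : R / ε ≤ K := Nat.le_ceil _
    have aux : ∀ t : ℝ, |t| ≤ R → -(K : ℤ) ≤ ⌊t / ε⌋ ∧ ⌊t / ε⌋ ≤ K := by
      intro t ht
      have h3 := abs_le.mp ht
      constructor
      · rw [Int.le_floor]
        push_cast
        have : -R / ε ≤ t / ε := by gcongr; linarith
        have h4 : -R / ε = -(R / ε) := by ring
        linarith
      · have h5 : (⌊t / ε⌋ : ℝ) ≤ t / ε := Int.floor_le _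
        have h6 : t / ε ≤ R / ε := by gcongr; linarith
        have h7 : (⌊t / ε⌋ : ℝ) ≤ (K : ℝ) := by linarith
        exact_mod_cast h7
    simp only [Finset.coe_product, Finset.coe_Icc, Set.mem_prod, Set.mem_Icc, g]
    exact ⟨aux _ h1, aux _ h2⟩
  have hinj : Set.InjOn g (ballV o R) := by
    intro x _ y _ hxy
    by_contra hne
    have h1 := hsep x y hne
    simp only [g, Prod.mk.injEq] at hxy
    have aux : ∀ s t : ℝ, ⌊s / ε⌋ = ⌊t / ε⌋ → |s - t| < ε := by
      intro s t hst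
      have h3 := Int.abs_sub_lt_one_of_floor_eq_floor hst
      rw [← sub_div, abs_div, abs_of_pos hε0, div_lt_one hε0] at h3
      exact h3
    have h2 := aux _ _ hxy.1
    have h3 := aux _ _ hxy.2
    have h4 : dist (x : ℂ) y ≤ |((x : ℂ) - y).re| + |((x : ℂ) - y).im| := by
      rw [dist_eq_norm]
      exact Complex.norm_le_abs_re_add_abs_im _
    have h5 : ((x : ℂ) - y).re = ((x : ℂ) - o).re - ((y : ℂ) - o).re := by simp
    have h6 : ((x : ℂ) - y).im = ((x : ℂ) - o).im - ((y : ℂ) - o).im := by simp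
    rw [h5, h6] at h4
    have h7 : δ = ε + ε := by rw [hε]; ring
    linarith
  have hfin : (ballV o R).Finite :=
    Set.Finite.of_injOn hmaps hinj (Finset.finite_toSet _)
  refine ⟨hfin, ?_⟩
  have hcard : (ballV o R).ncard ≤ (2 * K + 1) * (2 * K + 1) := by
    have h1 := Set.ncard_le_ncard_of_injOn g hmaps hinj (Finset.finite_toSet _)
    rw [Set.ncard_coe_finset, Finset.card_product, Int.card_Icc] at h1
    have h2 : ((K : ℤ) + 1 - -(K : ℤ)).toNat = 2 * K + 1 := by omega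
    rw [h2] at h1
    exact h1
  have h3 : ((ballV o R).ncard : ℝ) ≤ (2 * K + 1) * (2 * K + 1) := by exact_mod_cast hcard
  have h4 : (K : ℝ) ≤ R / ε + 1 := (Nat.ceil_lt_add_one (by positivity)).le
  have h5 : (2 * (K : ℝ) + 1) ≤ (2 / ε + 3) * (R + 1) := by
    have : (2 / ε + 3) * (R + 1) = 2 * (R / ε) + 3 * R + 2 / ε + 3 := by ring
    have h6 : 0 < 2 / ε := by positivity
    rw [this]; nlinarith
  calc ((ballV o R).ncard : ℝ) ≤ (2 * K + 1) * (2 * K + 1) := h3
    _ ≤ ((2 / ε + 3) * (R + 1)) * ((2 / ε + 3) * (R + 1)) := by gcongr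
    _ = _ := by ring

lemma fin_dist_le (D : ℝ) (hD : ∀ x y : V, G.Adj x y → dist (x : ℂ) y ≤ D) (N : ℕ)
    (w : Fin (N + 1) → V) (hadj : ∀ i : Fin N, G.Adj (w i.castSucc) (w i.succ)) (k : ℕ)
    (hk : k ≤ N) : dist (w 0 : ℂ) (w ⟨k, by omega⟩) ≤ k * D := by
  induction k with
  | zero => simp
  | succ k ih =>
    have h1 := ih (by omega)
    have h2 := hD _ _ (hadj ⟨k, by omega⟩)
    have h3 := dist_triangle (w 0 : ℂ) (w ⟨k, by omega⟩) (w ⟨k + 1, by omega⟩)
    have h4 : dist (w ⟨k, by omega⟩ : ℂ) (w ⟨k + 1, by omega⟩) ≤ D := h2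
    push_cast
    linarith

/-- The number of self-avoiding paths with given midpoint equals the number with given start. -/
lemma mid_ncard_eq (hG : IsLattice V G) (o : V) (n : ℕ) : (Mid G o n).ncard = a G o (2 * n) := by
  obtain ⟨D, hD0, hD⟩ := exists_edge hG o
  obtain ⟨C, hC⟩ := ballV_grid hG o
  set N : ℝ → ℕ := fun R => (ballV o R).ncard with hN
  have hNC : ∀ R, 0 ≤ R → (N R : ℝ) ≤ C * (R + 1) ^ 2 := fun R hR => (hC R hR).2
  have hN0 : 1 ≤ N 0 := by
    rw [hN]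
    simp only
    rw [Nat.one_le_iff_ne_zero, ← Nat.pos_iff_ne_zero, Set.ncard_pos (hC 0 le_rfl).1]
    exact ⟨o, by simp [ballV]⟩
  have hfinS : ∀ R, 0 ≤ R → (ballV o R).Finite := fun R hR => (hC R hR).1
  -- sets of pairs
  let T : ℝ → Set (V × (Fin (2 * n + 1) → V)) := fun R => {p | p.1 ∈ ballV o R ∧ p.2 ∈ Omega G p.1 (2 * n)}
  let U : ℝ → Set (V × (Fin (2 * n + 1) → V)) := fun R => {p | p.1 ∈ ballV o R ∧ p.2 ∈ Mid G p.1 n}
  have hT : ∀ R, 0 ≤ R → (T R).ncard = N R * a G o (2 * n) := fun R hR =>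
    ncard_dep (ballV o R) (hfinS R hR) (fun x => Omega G x (2 * n)) (fun x _ => omega_finite hG x _)
      (a G o (2 * n)) (fun x _ => a_const hG x o _)
  have hU : ∀ R, 0 ≤ R → (U R).ncard = N R * (Mid G o n).ncard := fun R hR =>
    ncard_dep (ballV o R) (hfinS R hR) (fun x => Mid G x n) (fun x _ => mid_finite hG x _)
      ((Mid G o n).ncard) (fun x _ => mid_const hG x o _)
  have hTf : ∀ R, 0 ≤ R → (T R).Finite := fun R hR =>
    finite_dep (ballV o R) (hfinS R hR) (fun x => Omega G x (2 * n)) (fun x _ => omega_finite hG x _)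
  have hUf : ∀ R, 0 ≤ R → (U R).Finite := fun R hR =>
    finite_dep (ballV o R) (hfinS R hR) (fun x => Mid G x n) (fun x _ => mid_finite hG x _)
  have hc : 0 ≤ (n : ℝ) * D := by positivity
  have hTU : ∀ R, 0 ≤ R → (T R).ncard ≤ (U (R + n * D)).ncard := by
    intro R hR
    refine Set.ncard_le_ncard_of_injOn (fun p => (p.2 ⟨n, by omega⟩, p.2)) ?_ ?_
      (hUf _ (by positivity))
    · rintro ⟨x, w⟩ ⟨hx, hw⟩
      refine ⟨?_, rfl, hw.2.1, hw.2.2⟩
      have h1 := fin_dist_le D hD (2 * n) w hw.2.1 n (by omega)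
      have h2 : w 0 = x := hw.1
      rw [h2] at h1
      have h3 : dist (x : ℂ) o ≤ R := hx
      have h4 := dist_triangle (w ⟨n, by omega⟩ : ℂ) x o
      rw [dist_comm] at h1
      show dist (w ⟨n, by omega⟩ : ℂ) o ≤ R + n * D
      linarith
    · rintro ⟨x, w⟩ ⟨_, hw⟩ ⟨x', w'⟩ ⟨_, hw'⟩ h
      simp only [Prod.mk.injEq] at h
      have h1 : w 0 = x := hw.1
      have h2 : w' 0 = x' := hw'.1
      rw [Prod.mk.injEq, ← h1, ← h2, h.2]
      exact ⟨rfl, rfl⟩
  have hUT : ∀ R, 0 ≤ R → (U R).ncard ≤ (T (R + n * D)).ncard := by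
    intro R hR
    refine Set.ncard_le_ncard_of_injOn (fun p => (p.2 0, p.2)) ?_ ?_
      (hTf _ (by positivity))
    · rintro ⟨x, w⟩ ⟨hx, hw⟩
      refine ⟨?_, rfl, hw.2.1, hw.2.2⟩
      have h1 := fin_dist_le D hD (2 * n) w hw.2.1 n (by omega)
      have h2 : w ⟨n, by omega⟩ = x := hw.1
      rw [h2] at h1
      have h3 : dist (x : ℂ) o ≤ R := hx
      have h4 := dist_triangle (w 0 : ℂ) x o
      show dist (w 0 : ℂ) o ≤ R + n * D
      linarith
    · rintro ⟨x, w⟩ ⟨_, hw⟩ ⟨x', w'⟩ ⟨_, hw'⟩ h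
      simp only [Prod.mk.injEq] at h
      have h1 : w ⟨n, by omega⟩ = x := hw.1
      have h2 : w' ⟨n, by omega⟩ = x' := hw'.1
      rw [Prod.mk.injEq, ← h1, ← h2, h.2]
      exact ⟨rfl, rfl⟩
  apply le_antisymm
  · refine le_of_growth N C (n * D) hc hNC hN0 _ _ (fun R hR => ?_)
    rw [← hU R hR, ← hT _ (by positivity)]
    exact hUT R hR
  · refine le_of_growth N C (n * D) hc hNC hN0 _ _ (fun R hR => ?_)
    rw [← hT R hR, ← hU _ (by positivity)]
    exact hTU R hR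

lemma P_eq (hG : IsLattice V G) (o : V) (n : ℕ) :
    P G o n = (a G o (2 * n) : ℝ) / (a G o n : ℝ) ^ 2 := by
  unfold P
  rw [pairs_ncard, mid_ncard_eq hG]

end Pool.Agent.Hlead.Saw
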